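import Pool.Agent.N658.TP.Stm4

/-! # Project TP, part D: the thermodynamic conditions (power law and exponential law) -/

open scoped BigOperators ComplexConjugate Classical InnerProductSpace Matrix ComplexOrder
open scoped Matrix.Norms.L2Operator

set_option autoImplicit false

noncomputable section

namespace Pool.Agent.N490.TP

open Pool.Agent.Y738.PE Pool.Agent.N658.TP

/-- the common part of the two laws -/
theorem core (h1 : StmFree1) (h2 : StmFreeDown) (d R' : ℕ) (hd : 2 ≤ d)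
    (h : Pool.Agent.TH235.PP.BoxOp d (R' + 1)) (hh : h.IsHermitian) (R : Finset (ℤ × ℤ))
    (K₀ : ℝ) (hK₀ : 0 ≤ K₀) : ∃ C : ℝ, 0 < C ∧ ∀ ε : ℝ, 0 < ε → ε ≤ 1 → ∀ β κ₀ : ℝ, 0 ≤ β → 0 ≤ κ₀ →
    (1 + β) * ε ≤ K₀ → (∃ m₀ : ℕ, ∀ (m : ℕ) [NeZero m], m₀ ≤ m → FreeLe h m β κ₀) →
    ∃ L₀ : ℕ, ∀ (L : ℕ) [NeZero L], L₀ ≤ L → ∀ Ψ : Conf d L → ℂ,
    IsGround (fun x y : BConf d (R' + 1) => h x y) L Ψ → TransInv Ψ →
    ∃ (D : ℕ) (A : Tensor d D),
      (D : ℝ) ≤ Real.exp (C * (1 + β + κ₀ / ε) * Real.log (2 / ε)) ∧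
      ∀ (L' : ℕ) [NeZero L'], C * (1 / ε) ^ 8 ≤ L' →
        nrm (pepsX A L') ≠ 0 ∧ Close R Ψ (pepsX A L') ε := by
  obtain ⟨C₁, hC₁, H1⟩ := h1 d R' hd h hh R
  obtain ⟨C₂, hC₂, H2⟩ := h2 d R' hd h hh
  obtain ⟨K₁, hK₁⟩ : ∃ K₁ : ℝ, K₁ = 2 * (C₁ * K₀ + R' + 2) := ⟨_, rfl⟩
  have hK₁1 : 4 ≤ K₁ := by
    rw [hK₁]
    have : 0 ≤ C₁ * K₀ := mul_nonneg hC₁.le hK₀
    have : (0 : ℝ) ≤ R' := Nat.cast_nonneg _
    linarith
  have hl2 : 0 < Real.log 2 := Real.log_pos (by norm_num)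
  have hlK : 0 ≤ Real.log K₁ := Real.log_nonneg (by linarith)
  obtain ⟨E, hE⟩ : ∃ E : ℝ, E = C₁ * ((1 + C₂ / C₁) * (Real.log K₁ / Real.log 2 + 2)) := ⟨_, rfl⟩
  have hE0 : 0 < E := by
    rw [hE]
    have : 0 ≤ C₂ / C₁ := by positivity
    have : 0 ≤ Real.log K₁ / Real.log 2 := by positivity
    positivity
  refine ⟨E + C₁ * K₁ ^ 4, by positivity, fun ε hε hε1 β κ₀ hβ hκ₀ hβε hm => ?_⟩
  obtain ⟨m₀, hm₀⟩ := hm
  obtain ⟨n, hn⟩ : ∃ n : ℕ, n = ⌈C₁ * (1 + β) / ε⌉₊ + R' + 1 := ⟨_, rfl⟩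
  have hn0 : 0 < n := by omega
  have hnR : R' + 1 ≤ n := by omega
  have i1 : NeZero (2 * n) := ⟨by omega⟩
  have i2 : NeZero (2 * n * (m₀ + 1)) := ⟨by positivity⟩
  have hX0 : 0 ≤ C₁ * (1 + β) / ε := by positivity
  have hn1 : C₁ * (1 + β) / ε ≤ n := by
    rw [hn]
    push_cast
    have := Nat.le_ceil (C₁ * (1 + β) / ε)
    have : (0 : ℝ) ≤ R' := Nat.cast_nonneg _
    linarith
  have hn2 : C₁ * (1 + β) / ε ≤ ((2 * n : ℕ) : ℝ) := by
    push_cast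
    have : (0 : ℝ) ≤ n := Nat.cast_nonneg _
    linarith
  have hn3 : ((2 * n : ℕ) : ℝ) ≤ K₁ * (1 / ε) ^ 2 := by
    have h3 := Nat.ceil_lt_add_one hX0
    have h4 : C₁ * (1 + β) / ε ≤ C₁ * K₀ * (1 / ε) ^ 2 := by
      have h5 : C₁ * (1 + β) / ε = C₁ * ((1 + β) * ε) * (1 / ε) ^ 2 := by
        field_simp
      rw [h5]
      exact mul_le_mul_of_nonneg_right (mul_le_mul_of_nonneg_left hβε hC₁.le) (by positivity)
    have h6 : 1 ≤ (1 / ε) ^ 2 := by
      have : 1 ≤ 1 / ε := by rw [le_div_iff₀ hε]; linarith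
      nlinarith
    have h7 : (R' : ℝ) + 2 ≤ (R' + 2) * (1 / ε) ^ 2 := le_mul_of_one_le_right (by positivity) h6
    rw [hn, hK₁]
    push_cast
    nlinarith
  have hlog : Real.log ((2 * n : ℕ) : ℝ) ≤ (Real.log K₁ / Real.log 2 + 2) * Real.log (2 / ε) := by
    have h3 : (0 : ℝ) < ((2 * n : ℕ) : ℝ) := by exact_mod_cast (by omega : 0 < 2 * n)
    have h4 := Real.log_le_log h3 hn3
    rw [Real.log_mul (by linarith) (by positivity), Real.log_pow] at h4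
    have h5 : Real.log (1 / ε) ≤ Real.log (2 / ε) :=
      Real.log_le_log (by positivity) (div_le_div_of_nonneg_right (by norm_num) hε.le)
    have h6 : Real.log 2 ≤ Real.log (2 / ε) :=
      Real.log_le_log (by norm_num) (by rw [le_div_iff₀ hε]; linarith)
    have h7 : Real.log K₁ ≤ Real.log K₁ / Real.log 2 * Real.log (2 / ε) := by
      calc Real.log K₁ = Real.log K₁ / Real.log 2 * Real.log 2 := by field_simp
        _ ≤ Real.log K₁ / Real.log 2 * Real.log (2 / ε) := mul_le_mul_of_nonneg_left h6 (by positivity)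
    rw [Nat.cast_ofNat (n := 2)] at h4
    linarith
  have hlog0 : 0 ≤ Real.log ((2 * n : ℕ) : ℝ) := by
    apply Real.log_nonneg
    exact_mod_cast (by omega : 1 ≤ 2 * n)
  have hlogε : 0 ≤ Real.log (2 / ε) := by
    apply Real.log_nonneg
    rw [le_div_iff₀ hε]
    linarith
  have hF := H2 n (m₀ + 1) hnR β κ₀ hβ (hm₀ (2 * n * (m₀ + 1)) (by nlinarith))
  obtain ⟨κ, hκ⟩ : ∃ κ : ℝ, κ = κ₀ + C₂ * β / (2 * n : ℕ) := ⟨_, rfl⟩
  rw [← hκ] at hF
  have hκ0 : 0 ≤ κ := by rw [hκ]; positivity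
  obtain ⟨L₀, hL₀⟩ := H1 ε hε hε1 β hβ n hn2 κ hκ0 hF
  refine ⟨L₀, fun L _ hL Ψ hΨ hT => ?_⟩
  obtain ⟨D, A, hD, hA⟩ := hL₀ L hL Ψ hΨ hT
  refine ⟨D, A, hD.trans ?_, fun L' _ hL' => hA L' ?_⟩
  · rw [Real.exp_le_exp]
    have h3 : C₂ * β / (2 * n : ℕ) / ε ≤ C₂ / C₁ * (1 + β) := by
      rcases eq_or_lt_of_le hβ with h0 | h0
      · rw [← h0]
        simp
        positivity
      · have h4 : (0 : ℝ) < ((2 * n : ℕ) : ℝ) := by exact_mod_cast (by omega : 0 < 2 * n)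
        have h5 : C₁ * (1 + β) ≤ ((2 * n : ℕ) : ℝ) * ε := by rwa [div_le_iff₀ hε] at hn2
        rw [div_div, div_le_iff₀ (by positivity)]
        calc C₂ * β ≤ C₂ * (1 + β) * 1 := by nlinarith
          _ ≤ C₂ * (1 + β) * (1 + β) := mul_le_mul_of_nonneg_left (by linarith) (by positivity)
          _ = C₂ / C₁ * (1 + β) * (C₁ * (1 + β)) := by field_simp
          _ ≤ C₂ / C₁ * (1 + β) * (((2 * n : ℕ) : ℝ) * ε) := mul_le_mul_of_nonneg_left h5 (by positivity)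
    have h4 : 1 + β + κ / ε ≤ (1 + C₂ / C₁) * (1 + β + κ₀ / ε) := by
      have h5 : κ / ε = κ₀ / ε + C₂ * β / (2 * n : ℕ) / ε := by rw [hκ, add_div]
      have h6 : 0 ≤ C₂ / C₁ * (κ₀ / ε) := by positivity
      rw [h5]
      nlinarith
    have h5 : 0 ≤ 1 + β + κ / ε := by positivity
    have h6 : 0 ≤ 1 + β + κ₀ / ε := by positivity
    calc C₁ * (1 + β + κ / ε) * Real.log ((2 * n : ℕ) : ℝ)
        ≤ C₁ * ((1 + C₂ / C₁) * (1 + β + κ₀ / ε)) * ((Real.log K₁ / Real.log 2 + 2) * Real.log (2 / ε)) :=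
          mul_le_mul (mul_le_mul_of_nonneg_left h4 hC₁.le) hlog hlog0 (by positivity)
      _ = E * (1 + β + κ₀ / ε) * Real.log (2 / ε) := by rw [hE]; ring
      _ ≤ (E + C₁ * K₁ ^ 4) * (1 + β + κ₀ / ε) * Real.log (2 / ε) := by
          refine mul_le_mul_of_nonneg_right (mul_le_mul_of_nonneg_right ?_ h6) hlogε
          have : 0 ≤ C₁ * K₁ ^ 4 := by positivity
          linarith
  · refine le_trans ?_ hL'
    have h3 : ((2 * n : ℕ) : ℝ) ^ 4 ≤ (K₁ * (1 / ε) ^ 2) ^ 4 := pow_le_pow_left₀ (Nat.cast_nonneg _) hn3 4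
    calc C₁ * ((2 * n : ℕ) : ℝ) ^ 4 ≤ C₁ * (K₁ * (1 / ε) ^ 2) ^ 4 := mul_le_mul_of_nonneg_left h3 hC₁.le
      _ = C₁ * K₁ ^ 4 * (1 / ε) ^ 8 := by ring
      _ ≤ (E + C₁ * K₁ ^ 4) * (1 / ε) ^ 8 := mul_le_mul_of_nonneg_right (by linarith) (by positivity)

/-- K4 -/
theorem free2 (h1 : StmFree1) (h2 : StmFreeDown) : StmFree2 := by
  intro d R' hd h hh R a α ha hα H
  obtain ⟨C, hC, hcore⟩ := core h1 h2 d R' hd h hh R 2 (by norm_num)
  refine ⟨C * (2 + a), by positivity, fun ε hε hε1 => ?_⟩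
  obtain ⟨β, hβ⟩ : ∃ β : ℝ, β = ε ^ (-(1 / (1 + α))) := ⟨_, rfl⟩
  have hβ1 : 1 ≤ β := by
    rw [hβ]
    exact Real.one_le_rpow_of_pos_of_le_one_of_nonpos hε hε1 (by
      have : 0 ≤ 1 / (1 + α) := by positivity
      linarith)
  have hβ2 : β * ε ≤ 1 := by
    have h3 : β * ε = ε ^ (α / (1 + α)) := by
      rw [hβ]
      nth_rewrite 2 [← Real.rpow_one ε]
      rw [← Real.rpow_add hε]
      congr 1
      field_simp
      ring
    rw [h3]
    exact Real.rpow_le_one hε.le hε1 (by positivity)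
  have hβa : β ^ (-α) / ε = β := by
    have h3 : β ^ (-α) = ε ^ (α / (1 + α)) := by
      rw [hβ, ← Real.rpow_mul hε.le]
      congr 1
      field_simp
    rw [h3, hβ]
    nth_rewrite 2 [← Real.rpow_one ε]
    rw [← Real.rpow_sub hε]
    congr 1
    field_simp
    ring
  obtain ⟨L₀, hL₀⟩ := hcore ε hε hε1 β (a * β ^ (-α)) (by linarith)
    (mul_nonneg ha (Real.rpow_nonneg (by linarith) _)) (by linarith) (H β hβ1)
  refine ⟨L₀, fun L _ hL Ψ hΨ hT => ?_⟩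
  obtain ⟨D, A, hD, hA⟩ := hL₀ L hL Ψ hΨ hT
  have hlogε : 0 ≤ Real.log (2 / ε) := by
    apply Real.log_nonneg
    rw [le_div_iff₀ hε]
    linarith
  refine ⟨D, A, hD.trans ?_, fun L' _ hL' => hA L' (le_trans ?_ hL')⟩
  · rw [Real.exp_le_exp]
    refine mul_le_mul_of_nonneg_right ?_ hlogε
    rw [← hβ, mul_div_assoc, hβa, mul_assoc]
    refine mul_le_mul_of_nonneg_left ?_ hC.le
    linarith
  · refine mul_le_mul_of_nonneg_right ?_ (by positivity)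
    nlinarith

/-- K5 -/
theorem free3 (h1 : StmFree1) (h2 : StmFreeDown) : StmFree3 := by
  intro d R' hd h hh R a c ha hc H
  obtain ⟨C, hC, hcore⟩ := core h1 h2 d R' hd h hh R (2 + 1 / c) (by positivity)
  have hl2 : 0 < Real.log 2 := Real.log_pos (by norm_num)
  obtain ⟨M, hM⟩ : ∃ M : ℝ, M = (2 + a) / Real.log 2 + 1 / c + 1 := ⟨_, rfl⟩
  have hM1 : 1 ≤ M := by
    rw [hM]
    have : 0 ≤ (2 + a) / Real.log 2 := by positivity
    have : 0 ≤ 1 / c := by positivity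
    linarith
  refine ⟨C * M, by positivity, fun ε hε hε1 => ?_⟩
  have hle : 0 ≤ Real.log (1 / ε) := Real.log_nonneg (by rw [le_div_iff₀ hε]; linarith)
  have hle1 : Real.log (1 / ε) * ε ≤ 1 := by
    have h3 : Real.log (1 / ε) ≤ 1 / ε := by
      have := Real.log_le_sub_one_of_pos (show (0 : ℝ) < 1 / ε by positivity)
      linarith
    calc Real.log (1 / ε) * ε ≤ 1 / ε * ε := mul_le_mul_of_nonneg_right h3 hε.le
      _ = 1 := by field_simp
  obtain ⟨β, hβ⟩ : ∃ β : ℝ, β = 1 + Real.log (1 / ε) / c := ⟨_, rfl⟩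
  have hβ1 : 1 ≤ β := by
    rw [hβ]
    have : 0 ≤ Real.log (1 / ε) / c := by positivity
    linarith
  have hβ2 : (1 + β) * ε ≤ 2 + 1 / c := by
    have h3 : (1 + β) * ε = 2 * ε + Real.log (1 / ε) * ε / c := by rw [hβ]; ring
    rw [h3]
    have h4 : Real.log (1 / ε) * ε / c ≤ 1 / c := div_le_div_of_nonneg_right hle1 hc.le
    linarith
  have hβa : a * Real.exp (-(c * β)) / ε ≤ a := by
    have h3 : Real.exp (-(c * β)) = Real.exp (-c) * ε := by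
      have h4 : -(c * β) = -c + Real.log ε := by
        rw [hβ, one_div, Real.log_inv]
        field_simp
        ring
      rw [h4, Real.exp_add, Real.exp_log hε]
    rw [h3]
    have h4 : a * (Real.exp (-c) * ε) / ε = a * Real.exp (-c) := by field_simp
    rw [h4]
    have h5 : Real.exp (-c) ≤ 1 := Real.exp_le_one_iff.2 (by linarith)
    exact mul_le_of_le_one_right ha h5
  obtain ⟨L₀, hL₀⟩ := hcore ε hε hε1 β (a * Real.exp (-(c * β))) (by linarith)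
    (by positivity) hβ2 (H β hβ1)
  refine ⟨L₀, fun L _ hL Ψ hΨ hT => ?_⟩
  obtain ⟨D, A, hD, hA⟩ := hL₀ L hL Ψ hΨ hT
  have hlogε : Real.log 2 ≤ Real.log (2 / ε) :=
    Real.log_le_log (by norm_num) (by rw [le_div_iff₀ hε]; linarith)
  refine ⟨D, A, hD.trans ?_, fun L' _ hL' => hA L' (le_trans ?_ hL')⟩
  · rw [Real.exp_le_exp, sq, ← mul_assoc]
    refine mul_le_mul_of_nonneg_right ?_ (by linarith)
    rw [mul_assoc]
    refine mul_le_mul_of_nonneg_left ?_ hC.le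
    have h5 : Real.log (1 / ε) ≤ Real.log (2 / ε) :=
      Real.log_le_log (by positivity) (div_le_div_of_nonneg_right (by norm_num) hε.le)
    have h6 : 2 + a ≤ (2 + a) / Real.log 2 * Real.log (2 / ε) := by
      calc 2 + a = (2 + a) / Real.log 2 * Real.log 2 := by field_simp
        _ ≤ (2 + a) / Real.log 2 * Real.log (2 / ε) := mul_le_mul_of_nonneg_left hlogε (by positivity)
    have h7 : Real.log (1 / ε) / c ≤ 1 / c * Real.log (2 / ε) := by
      rw [div_eq_mul_one_div, mul_comm]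
      exact mul_le_mul_of_nonneg_left h5 (by positivity)
    have h8 : 0 ≤ Real.log (2 / ε) := by linarith
    have h9 : 1 + β + a * Real.exp (-(c * β)) / ε ≤ (2 + a) + Real.log (1 / ε) / c := by
      have : 1 + β = 2 + Real.log (1 / ε) / c := by rw [hβ]; ring
      linarith
    rw [hM]
    nlinarith
  · refine mul_le_mul_of_nonneg_right ?_ (by positivity)
    nlinarith

end Pool.Agent.N490.TP
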